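import Pool.Agent.Helper37.SY.Spec

/-!
# SY, part NEA: the local estimate
-/

set_option autoImplicit false

noncomputable section

open MeasureTheory Set Filter Topology
open scoped ENNReal Pointwise

namespace Pool.Agent.Helper75.SY.NEA

open Pool.Agent.Helper77.LM Helper63.LP Helper37.SY

/-- the real computation -/
theorem real_comp {G v D C c c' N M g vK : ℝ} (hG : 0 < G) (hv : 0 < v) (hD : 0 ≤ D) (hN : 1 ≤ N)
    (hc'0 : 0 < c') (hc'1 : c' ≤ M * c / (2 * v)) (hc'2 : c' ≤ 1 / v)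
    (hvK : vK = v - D) (hvK0 : 0 < vK) (hCD : C * D ≤ M * c * G / (2 * v))
    (hg : g ≤ G - (N + M * c) * (G / v) * D + C * D ^ 2) :
    g / vK ^ N ≤ (1 - c' * D) * (G / v ^ N) := by
  have hvN : 0 < v ^ N := Real.rpow_pos_of_pos hv _
  have hvKN : 0 < vK ^ N := Real.rpow_pos_of_pos hvK0 _
  have hDv : D ≤ v := by linarith
  have h1 : 0 ≤ 1 - c' * D := by
    have h2 : c' * D ≤ 1 / v * v := mul_le_mul hc'2 hDv hD (by positivity)
    rw [one_div, inv_mul_cancel₀ hv.ne'] at h2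
    linarith
  have hber : 1 - N * (D / v) ≤ vK ^ N / v ^ N := by
    rw [← Real.div_rpow hvK0.le hv.le]
    have h3 : vK / v = 1 + (-(D / v)) := by
      rw [hvK]
      field_simp
      ring
    rw [h3]
    have h4 : -1 ≤ -(D / v) := by
      have : D / v ≤ 1 := (div_le_one hv).2 hDv
      linarith
    have h5 := one_add_mul_self_le_rpow_one_add h4 hN
    linarith
  rw [div_le_iff₀ hvKN]
  have h6 : (1 - c' * D) * (G / v ^ N) * vK ^ N = (1 - c' * D) * G * (vK ^ N / v ^ N) := by ring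
  rw [h6]
  have h7 : (1 - c' * D) * G * (1 - N * (D / v)) ≤ (1 - c' * D) * G * (vK ^ N / v ^ N) :=
    mul_le_mul_of_nonneg_left hber (mul_nonneg h1 hG.le)
  refine le_trans ?_ h7
  refine hg.trans ?_
  have h8 : c' * D * G ≤ M * c / (2 * v) * D * G :=
    mul_le_mul_of_nonneg_right (mul_le_mul_of_nonneg_right hc'1 hD) hG.le
  have h9 : C * D * D ≤ M * c * G / (2 * v) * D := mul_le_mul_of_nonneg_right hCD hD
  have h10 : 0 ≤ c' * D * G * (N * (D / v)) := by positivity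
  have h11 : M * c / (2 * v) * D * G + M * c * G / (2 * v) * D = M * c * (G / v) * D := by
    field_simp
    ring
  have h12 : N * (G / v) * D = G * (N * (D / v)) := by ring
  nlinarith [h8, h9, h10, h11, h12]

lemma near_mono {m : ℕ} {η η' : ℝ} {K : Set (Fin (m + 1) → ℝ)} (hη : η < 1) (h : η ≤ η')
    (h' : η' < 1) (hK : Near m η K) : Near m η' K := by
  refine ⟨hK.conv, hK.closed, hK.sub, fun x hx => ?_, hK.cen⟩
  have h0 : 0 < 1 - η := by linarith
  have h1 : ((1 - η') / (1 - η)) • x ∈ Dl (m + 1) :=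
    smul_mem_Dl hx (div_nonneg (by linarith) h0.le) ((div_le_one h0).2 (by linarith))
  have h2 := hK.big _ h1
  rw [smul_smul, mul_div_cancel₀ _ h0.ne'] at h2
  exact h2

lemma vol_low {m : ℕ} {η : ℝ} {K : Set (Fin (m + 1) → ℝ)} (hη : η < 1)
    (hK : Near m η K) : (1 - η) ^ (m + 1) * V (m + 1) ≤ (volume K).toReal := by
  have hfin : volume K ≠ ∞ :=
    ((measure_mono hK.sub).trans_lt isCompact_Dl.measure_lt_top).ne
  have hsub : (1 - η) • Dl (m + 1) ⊆ K := by
    rintro _ ⟨x, hx, rfl⟩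
    exact hK.big x hx
  have h1 := measure_mono (μ := volume) hsub
  have h2 := ENNReal.toReal_mono hfin h1
  rw [Measure.addHaar_smul_of_nonneg volume (by linarith) (Dl (m + 1)), ENNReal.toReal_mul,
    ENNReal.toReal_ofReal (by have : 0 ≤ 1 - η := by linarith
                              positivity)] at h2
  simpa [V] using h2

lemma vol_diff {m : ℕ} {η : ℝ} {K : Set (Fin (m + 1) → ℝ)}
    (hK : Near m η K) : (volume K).toReal = V (m + 1) - (volume (Dl (m + 1) \ K)).toReal := by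
  have hfin : volume K ≠ ∞ :=
    ((measure_mono hK.sub).trans_lt isCompact_Dl.measure_lt_top).ne
  have h1 := measure_sdiff (μ := volume) hK.sub hK.closed.measurableSet.nullMeasurableSet hfin
  rw [h1, ENNReal.toReal_sub_of_le (measure_mono hK.sub) vol_ne_top]
  simp only [V]
  ring

theorem main (hF : S_FCV) (hT : S_TAY) (hL : S_LOC) : S_NEA := by
  intro k q hq
  obtain ⟨η1, c, hη1, hη1', hc, hloc⟩ := hL k q hq
  obtain ⟨C, hC, htay⟩ := hT (k + 2) q hq
  obtain ⟨-, -, -, -, -, hG⟩ := hF (k + 2) q hq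
  have hv := V_pos (k + 2)
  have hδ0 : 0 < ((k : ℝ) + 3) * c * Gq q (Dl (k + 2)) / (2 * V (k + 2) * C) := by positivity
  set δ : ℝ := ((k : ℝ) + 3) * c * Gq q (Dl (k + 2)) / (2 * V (k + 2) * C) with hδ
  set η0 : ℝ := min η1 (δ / (V (k + 2) * ((k : ℝ) + 2))) with hη0def
  set c' : ℝ := min (((k : ℝ) + 3) * c / (2 * V (k + 2))) (1 / V (k + 2)) with hc'def
  have hη0 : 0 < η0 := lt_min hη1 (by positivity)
  have hη01 : η0 ≤ η1 := min_le_left _ _
  have hη0' : η0 < 1 := lt_of_le_of_lt hη01 hη1'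
  have hc'0 : 0 < c' := lt_min (by positivity) (by positivity)
  refine ⟨η0, c', hη0, hη0', hc'0, ?_⟩
  intro K hK
  have hN1 : Near (k + 1) η1 K := near_mono hη0' hη01 hη1' hK
  have hlow := vol_low hη0' hK
  have hdiff := vol_diff hK
  have hpow : 0 < (1 - η0) ^ (k + 1 + 1) := pow_pos (by linarith) _
  have hvK0 : 0 < (volume K).toReal := lt_of_lt_of_le (mul_pos hpow hv) hlow
  have hD0 : 0 ≤ (volume (Dl (k + 1 + 1) \ K)).toReal := ENNReal.toReal_nonneg
  have hDδ : (volume (Dl (k + 1 + 1) \ K)).toReal ≤ δ := by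
    have h1 := one_add_mul_le_pow (show (-2 : ℝ) ≤ -η0 by linarith) (k + 1 + 1)
    have h2 : (1 + ((k + 1 + 1 : ℕ) : ℝ) * -η0) * V (k + 1 + 1) ≤
        (1 + -η0) ^ (k + 1 + 1) * V (k + 1 + 1) := mul_le_mul_of_nonneg_right h1 hv.le
    have h3 : η0 ≤ δ / (V (k + 2) * ((k : ℝ) + 2)) := min_le_right _ _
    rw [le_div_iff₀ (by positivity)] at h3
    have h4 : (1 + -η0) = 1 - η0 := by ring
    rw [h4] at h2
    push_cast at h2
    have h5 : V (k + 1 + 1) = V (k + 2) := rfl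
    rw [h5] at *
    nlinarith [h2, h3, hlow, hdiff]
  refine ⟨hvK0, ?_⟩
  have hl := hloc K hN1
  have ht := (htay K hK.closed.measurableSet hK.sub).2
  refine real_comp (v := V (k + 2)) (D := (volume (Dl (k + 2) \ K)).toReal)
    (N := ((k + 2 : ℕ) : ℝ) + 1 + q) (M := (k : ℝ) + 3) (C := C) (c := c) hG hv
    ENNReal.toReal_nonneg ?_ hc'0 (min_le_left _ _) (min_le_right _ _) hdiff hvK0 ?_ ?_
  · have : (0 : ℝ) ≤ ((k + 2 : ℕ) : ℝ) := Nat.cast_nonneg _
    linarith
  · calc C * (volume (Dl (k + 2) \ K)).toReal ≤ C * δ := mul_le_mul_of_nonneg_left hDδ hC.le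
      _ = ((k : ℝ) + 3) * c * Gq q (Dl (k + 2)) / (2 * V (k + 2)) := by
        rw [hδ]
        field_simp
  · refine ht.trans ?_
    have h6 : (((k + 2 : ℕ) : ℝ) + 1) *
        ((1 + q / ((k : ℝ) + 3) + c) * (Gq q (Dl (k + 2)) / V (k + 2)) *
          (volume (Dl (k + 2) \ K)).toReal) ≤
        (((k + 2 : ℕ) : ℝ) + 1) * ∫ x in Dl (k + 2) \ K, F q x :=
      mul_le_mul_of_nonneg_left hl (by positivity)
    have h7 : (((k + 2 : ℕ) : ℝ) + 1) *
        ((1 + q / ((k : ℝ) + 3) + c) * (Gq q (Dl (k + 2)) / V (k + 2)) *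
          (volume (Dl (k + 2) \ K)).toReal) =
        (((k + 2 : ℕ) : ℝ) + 1 + q + ((k : ℝ) + 3) * c) * (Gq q (Dl (k + 2)) / V (k + 2)) *
          (volume (Dl (k + 2) \ K)).toReal := by
      push_cast
      field_simp
      ring
    rw [h7] at h6
    linarith

end Pool.Agent.Helper75.SY.NEA

end
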